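import Pool.Agent.V7H65.LP.Red

/-!
# Recognition of `k`-locally planar graphs is `NP`-hard for every fixed `k ≥ 3`
-/

set_option autoImplicit false

namespace Pool.Agent.Results.MP_32ee78_lc.LocallyPlanarHardH65

open Pool.Agent.NPC Pool.Agent.V7H65.LP Pool.Agent.H692R2 Pool.Agent.H673R2 Pool.Agent.R544

/-- Every property between straight-line and weak `k`-local planarity is `NP`-hard. -/
theorem between {k : ℕ} (hk : 3 ≤ k) (P : FinGraph → Prop)
    (h1 : ∀ G : FinGraph, StraightLocPlanar k G.graph → P G)
    (h2 : ∀ G : FinGraph, P G → WeakLocPlanar k G.graph) : NPHardP P := by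
  obtain ⟨T, rfl⟩ : ∃ T, k = T + 2 := ⟨k - 2, by omega⟩
  have hT : 1 ≤ T := by omega
  refine (npHardOn_of (Pr' := fun _ => True) hardPr_NAE3 (poly_redG T) (fun _ _ => trivial)
    fun φ hφ => ⟨fun h => h1 _ (red_complete hT hφ h), fun h => red_sound hT hφ (h2 _ h)⟩).toNPHardP

/-- For every fixed `k ≥ 3` it is `NP`-hard to decide whether a graph is `k`-locally planar; the
same holds for every property of graphs that all graphs with a straight-line `k`-locally planar
drawing have and that implies the existence of a weakly `k`-locally planar drawing. -/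
theorem result (k : ℕ) (hk : 3 ≤ k) :
    NPHardP (fun G : FinGraph => LocPlanar k G.graph) ∧
      ∀ P : FinGraph → Prop, (∀ G : FinGraph, StraightLocPlanar k G.graph → P G) →
        (∀ G : FinGraph, P G → WeakLocPlanar k G.graph) → NPHardP P :=
  ⟨between hk _ (fun _ h => h.locPlanar) fun _ h => h.weak, fun P h1 h2 => between hk P h1 h2⟩

end Pool.Agent.Results.MP_32ee78_lc.LocallyPlanarHardH65
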